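import Mathlib

/-!
# Liouville-avoiding strongly nowhere constant maps on matrix spaces

We determine all admissible pairs `(m, n)`: a pair of positive integers is admissible if and only
if `2 ≤ m`.
-/

open Polynomial Matrix Set

namespace Pool.Agent.Results.MP_6d7a61_nt.Classification

/-- The real vector with the same entries as the integer vector `q`. -/
def realVec {k : ℕ} (q : Fin k → ℤ) : Fin k → ℝ := fun i => (q i : ℝ)

/-- The real matrix with the same entries as the rational matrix `R`. -/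
def realMat {m n : ℕ} (R : Matrix (Fin m) (Fin n) ℚ) : Matrix (Fin m) (Fin n) ℝ :=
  fun i j => (R i j : ℝ)

/-- `A` is a Liouville matrix: `A q ≠ p` for all integer vectors `(q, p) ≠ (0, 0)`, and for every
real `N > 0` there are integer vectors `p` and `q` with `‖q‖ > 1` and `‖A q - p‖ < ‖q‖ ^ (-N)`
(supremum norms; `‖q‖ > 1` instead of `q ≠ 0`, as for Liouville numbers, since with `‖q‖ = 1` the
condition would be empty). -/
def IsLiouvilleMatrix {m n : ℕ} (A : Matrix (Fin m) (Fin n) ℝ) : Prop :=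
  (∀ (q : Fin n → ℤ) (p : Fin m → ℤ), (q, p) ≠ (0, 0) → A *ᵥ realVec q ≠ realVec p) ∧
  (∀ N : ℝ, 0 < N → ∃ (p : Fin m → ℤ) (q : Fin n → ℤ),
    1 < ‖q‖ ∧ ‖A *ᵥ realVec q - realVec p‖ < ‖q‖ ^ (-N))

/-- A map is nowhere constant if it is constant on no non-empty open subset of its domain. -/
def NowhereConstant {X Y : Type*} [TopologicalSpace X] (g : X → Y) : Prop :=
  ∀ U : Set X, IsOpen U → U.Nonempty → ¬ ∃ c : Y, ∀ x ∈ U, g x = c

/-- The LIC property: for no set `Ω` with non-empty interior are there fixed integer vectors `p`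
and `q ≠ 0` with `B q = p` for all `B ∈ f(Ω)`. -/
def LIC {m n : ℕ} (f : Matrix (Fin m) (Fin n) ℝ → Matrix (Fin m) (Fin n) ℝ) : Prop :=
  ∀ Ω : Set (Matrix (Fin m) (Fin n) ℝ), (interior Ω).Nonempty →
    ¬ ∃ (p : Fin m → ℤ) (q : Fin n → ℤ), q ≠ 0 ∧ ∀ B ∈ f '' Ω, B *ᵥ realVec q = realVec p

/-- `f` is strongly nowhere constant: for all invertible rational `R₁`, `R₂` and all rational `T`,
every entry function of `A ↦ R₁ f(A) R₂ + T` is nowhere constant. -/
def StronglyNowhereConstant {m n : ℕ}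
    (f : Matrix (Fin m) (Fin n) ℝ → Matrix (Fin m) (Fin n) ℝ) : Prop :=
  ∀ (R₁ : Matrix (Fin m) (Fin m) ℚ) (R₂ : Matrix (Fin n) (Fin n) ℚ)
    (T : Matrix (Fin m) (Fin n) ℚ), IsUnit R₁ → IsUnit R₂ → ∀ (i : Fin m) (j : Fin n),
      NowhereConstant (fun A : Matrix (Fin m) (Fin n) ℝ =>
        (realMat R₁ * f A * realMat R₂ + realMat T) i j)

/-- `(m, n)` is admissible if some continuous, strongly nowhere constant self-map of the space of
real `m × n` matrices with the LIC property takes no Liouville matrix as a value. -/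
def Admissible (m n : ℕ) : Prop :=
  ∃ f : Matrix (Fin m) (Fin n) ℝ → Matrix (Fin m) (Fin n) ℝ,
    Continuous f ∧ StronglyNowhereConstant f ∧ LIC f ∧ ∀ A, ¬ IsLiouvilleMatrix (f A)

/-! ## A lower bound for integer polynomials at `2 ^ (1 / d)` -/

lemma irr (d : ℕ) (hd : 0 < d) : Irreducible (X ^ d - C 2 : ℤ[X]) := by
  have hp : Prime (2 : ℤ) := Int.prime_two
  have hprime : (Ideal.span {(2:ℤ)}).IsPrime := (Ideal.span_singleton_prime (by norm_num)).2 hp
  have hmonic : (X ^ d - C 2 : ℤ[X]).Monic := monic_X_pow_sub_C 2 hd.ne'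
  have hdeg : (X ^ d - C 2 : ℤ[X]).degree = d := degree_X_pow_sub_C hd 2
  refine irreducible_of_eisenstein_criterion hprime ?_ ?_ ?_ ?_ hmonic.isPrimitive
  · rw [hmonic.leadingCoeff, Ideal.mem_span_singleton]
    decide
  · intro n hn
    rw [hdeg] at hn
    have hn' : n < d := by exact_mod_cast hn
    rw [Ideal.mem_span_singleton, coeff_sub, coeff_X_pow, coeff_C]
    rw [if_neg hn'.ne]
    split_ifs <;> simp
  · rw [hdeg]; exact_mod_cast hd
  · rw [Ideal.span_singleton_pow, Ideal.mem_span_singleton, coeff_sub, coeff_X_pow, coeff_C]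
    rw [if_neg hd.ne, if_pos rfl]
    decide

/-- The lower bound for integer polynomials at `2^(1/d)`. -/
lemma lower_bound (d : ℕ) (hd : 0 < d) (θ : ℝ) (hθ : θ ^ d = 2) :
    ∃ c : ℝ, 0 < c ∧ ∀ x : Fin d → ℤ, x ≠ 0 →
      c ≤ |∑ i, (x i : ℝ) * θ ^ (i : ℕ)| * ‖x‖ ^ (d - 1) := by
  set F : ℤ[X] := X ^ d - C 2 with hF
  have hFmonic : F.Monic := monic_X_pow_sub_C 2 hd.ne'
  have hFdeg : F.natDegree = d := natDegree_X_pow_sub_C
  have hFirr : Irreducible F := irr d hd
  set S : ℝ := ∑ i : Fin d, (2:ℝ) ^ (i : ℕ) with hS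
  have hSpos : 1 ≤ S := by
    have : (2:ℝ) ^ (((⟨0, hd⟩ : Fin d)) : ℕ) ≤ S := by
      rw [hS]
      exact Finset.single_le_sum (f := fun i : Fin d => (2:ℝ) ^ (i:ℕ)) (fun i _ => by positivity) (Finset.mem_univ _)
    simpa using this
  refine ⟨(S ^ (d - 1))⁻¹, by positivity, ?_⟩
  intro x hx
  set P : ℤ[X] := ∑ i : Fin d, C (x i) * X ^ (i : ℕ) with hP
  have hcoeff : ∀ i : Fin d, P.coeff i = x i := by
    intro i
    rw [hP, finsetSum_coeff]
    simp only [coeff_C_mul, coeff_X_pow]
    rw [Finset.sum_eq_single i]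
    · simp
    · intro b _ hb
      rw [if_neg, mul_zero]
      intro h
      exact hb (Fin.ext h.symm)
    · intro h; exact absurd (Finset.mem_univ i) h
  have hPne : P ≠ 0 := by
    intro h
    apply hx
    funext i
    rw [← hcoeff i, h]; simp
  have hPdeg : P.natDegree < d := by
    have : P.degree < d := by
      rw [hP]
      refine lt_of_le_of_lt (degree_sum_le _ _) ?_
      rw [Finset.sup_lt_iff (by exact_mod_cast WithBot.bot_lt_coe d)]
      intro i _
      refine lt_of_le_of_lt (degree_C_mul_X_pow_le _ _) ?_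
      exact_mod_cast i.2
    exact (natDegree_lt_iff_degree_lt hPne).2 this
  -- the complex side
  set φ : ℤ →+* ℂ := Int.castRingHom ℂ with hφ
  have hφinj : Function.Injective φ := Int.cast_injective
  have hsplit : (F.map φ).Splits := IsAlgClosed.splits _
  have hres := resultant_eq_prod_eval (F.map φ) (P.map φ) (d - 1)
    (by rw [natDegree_map_eq_of_injective hφinj]; omega) hsplit
  rw [natDegree_map_eq_of_injective hφinj, hFdeg, (hFmonic.map φ).leadingCoeff, one_pow, one_mul,
    resultant_map_map] at hres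
  set r : ℤ := resultant F P d (d - 1) with hr
  have hroot : ∀ z ∈ (F.map φ).roots, z ^ d = 2 := by
    intro z hz
    have h1 := (mem_roots (hFmonic.map φ).ne_zero).1 hz
    rw [IsRoot.def, hF] at h1
    simp only [Polynomial.map_sub, Polynomial.map_pow, map_X, eval_sub, eval_pow, eval_X] at h1
    have : eval z (map φ (C 2)) = 2 := by
      rw [map_C]; simp [hφ]
    rw [this] at h1
    exact sub_eq_zero.1 h1
  have hnormroot : ∀ z : ℂ, z ^ d = 2 → ‖z‖ ≤ 2 := by
    intro z hz
    by_contra hcon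
    push Not at hcon
    have h1 : ‖z‖ ^ d = 2 := by rw [← norm_pow, hz]; simp
    have h2 : ‖z‖ ^ 1 ≤ ‖z‖ ^ d := pow_le_pow_right₀ (by linarith) hd
    rw [h1, pow_one] at h2
    linarith
  have hevalP : ∀ z : ℂ, (P.map φ).eval z = ∑ i : Fin d, (x i : ℂ) * z ^ (i : ℕ) := by
    intro z
    rw [hP, Polynomial.map_sum, eval_finsetSum]
    apply Finset.sum_congr rfl
    intro i _
    simp [hφ]
  have hbound : ∀ z : ℂ, z ^ d = 2 → ‖(P.map φ).eval z‖ ≤ S * ‖x‖ := by
    intro z hz
    rw [hevalP]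
    refine (norm_sum_le _ _).trans ?_
    rw [hS, Finset.sum_mul]
    apply Finset.sum_le_sum
    intro i _
    rw [norm_mul, norm_pow, mul_comm]
    have h1 : ‖(x i : ℂ)‖ ≤ ‖x‖ := by
      rw [Complex.norm_intCast, ← Int.norm_eq_abs]
      exact norm_le_pi_norm x i
    have h2 : ‖z‖ ^ (i:ℕ) ≤ 2 ^ (i:ℕ) := pow_le_pow_left₀ (norm_nonneg _) (hnormroot z hz) _
    exact mul_le_mul h2 h1 (norm_nonneg _) (by positivity)
  have hrne : r ≠ 0 := by
    intro h0
    rw [h0, map_zero] at hres
    have h2 := Multiset.prod_eq_zero_iff.1 hres.symm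
    obtain ⟨z, hz, hz0⟩ := Multiset.mem_map.1 h2
    -- F.map is irreducible over ℚ
    have hFQ : Irreducible (F.map (Int.castRingHom ℚ)) :=
      (Polynomial.IsPrimitive.Int.irreducible_iff_irreducible_map_cast hFmonic.isPrimitive).1 hFirr
    have hzF : aeval z (F.map (Int.castRingHom ℚ)) = 0 := by
      rw [← algebraMap_int_eq, aeval_map_algebraMap, ← eval_map_algebraMap, algebraMap_int_eq]
      exact (mem_roots (hFmonic.map φ).ne_zero).1 hz
    have hzP : aeval z (P.map (Int.castRingHom ℚ)) = 0 := by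
      rw [← algebraMap_int_eq, aeval_map_algebraMap, ← eval_map_algebraMap, algebraMap_int_eq]
      exact hz0
    have hmin := minpoly.eq_of_irreducible_of_monic hFQ hzF (hFmonic.map _)
    have hPQne : P.map (Int.castRingHom ℚ) ≠ 0 := (Polynomial.map_ne_zero_iff Int.cast_injective).2 hPne
    have hle := natDegree_le_natDegree (minpoly.degree_le_of_ne_zero ℚ z hPQne hzP)
    rw [← hmin, natDegree_map_eq_of_injective Int.cast_injective,
        natDegree_map_eq_of_injective Int.cast_injective, hFdeg] at hle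
    omega
  -- θ is a root
  have hθroot : (θ : ℂ) ∈ (F.map φ).roots := by
    rw [mem_roots (hFmonic.map φ).ne_zero, IsRoot.def, hF]
    simp only [Polynomial.map_sub, Polynomial.map_pow, map_X, eval_sub, eval_pow, eval_X]
    rw [map_C]
    simp only [hφ, eq_intCast, eval_C, Int.cast_ofNat]
    rw [← Complex.ofReal_pow, hθ]; simp
  have hcard : (F.map φ).roots.card = d := by
    rw [← hsplit.natDegree_eq_card_roots, natDegree_map_eq_of_injective hφinj, hFdeg]
  have hprod : ‖((F.map φ).roots.map (P.map φ).eval).prod‖ ≤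
      ‖(P.map φ).eval (θ : ℂ)‖ * (S * ‖x‖) ^ (d - 1) := by
    rw [← Multiset.cons_erase hθroot, Multiset.map_cons, Multiset.prod_cons, norm_mul]
    apply mul_le_mul_of_nonneg_left _ (norm_nonneg _)
    set T := (F.map φ).roots.erase (θ:ℂ) with hT
    have hTcard : T.card = d - 1 := by
      rw [hT, Multiset.card_erase_of_mem hθroot, hcard]; rfl
    have hTmem : ∀ z ∈ T, z ^ d = 2 := fun z hz => hroot z (Multiset.mem_of_mem_erase hz)
    rw [← hTcard]
    clear_value T
    clear hTcard hT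
    induction T using Multiset.induction_on with
    | empty => simp
    | cons a T ih =>
      rw [Multiset.map_cons, Multiset.prod_cons, norm_mul, Multiset.card_cons, pow_succ, mul_comm]
      apply mul_le_mul (ih (fun z hz => hTmem z (Multiset.mem_cons_of_mem hz)))
        (hbound a (hTmem a (Multiset.mem_cons_self a T))) (norm_nonneg _)
      positivity
  have h1 : (1:ℝ) ≤ ‖(φ r : ℂ)‖ := by
    rw [hφ, eq_intCast, Complex.norm_intCast]
    exact_mod_cast Int.one_le_abs hrne
  rw [hres] at h1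
  have h2 := h1.trans hprod
  have h3 : ‖(P.map φ).eval (θ : ℂ)‖ = |∑ i, (x i : ℝ) * θ ^ (i : ℕ)| := by
    rw [hevalP, ← Real.norm_eq_abs, ← Complex.norm_real]
    congr 1
    push_cast
    rfl
  rw [h3, mul_pow, mul_comm (S ^ (d-1)), ← mul_assoc] at h2
  rw [inv_le_iff_one_le_mul₀ (by positivity)]
  exact h2


/-! ## The case `m ≥ 2`: a linear construction -/

/-- Perturbing one entry of a matrix inside an open set. -/
lemma exists_perturb {m n : ℕ} {U : Set (Matrix (Fin m) (Fin n) ℝ)} (hU : IsOpen U)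
    {A : Matrix (Fin m) (Fin n) ℝ} (hA : A ∈ U) (k : Fin m) (l : Fin n) :
    ∃ ε : ℝ, ε ≠ 0 ∧ A + Matrix.single k l ε ∈ U := by
  have hcont : Continuous (fun ε : ℝ => A + Matrix.single k l ε) := by
    refine continuous_const.add ?_
    refine continuous_pi fun i => continuous_pi fun j => ?_
    simp only [Matrix.single, Matrix.of_apply]
    split_ifs <;> fun_prop
  have hopen : IsOpen ((fun ε : ℝ => A + Matrix.single k l ε) ⁻¹' U) := hU.preimage hcont
  have h0 : (0:ℝ) ∈ ((fun ε : ℝ => A + Matrix.single k l ε) ⁻¹' U) := by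
    simpa using hA
  obtain ⟨δ, hδ, hball⟩ := Metric.isOpen_iff.1 hopen 0 h0
  refine ⟨δ / 2, by positivity, ?_⟩
  apply hball
  rw [Metric.mem_ball, dist_zero_right, Real.norm_eq_abs, abs_of_pos (by positivity)]
  linarith

/-- The map: all rows but the first are free, the first row is determined by
`∑ i, θ ^ i * (row i) = w`, with `w j = θ ^ (m + j)`. -/
noncomputable def theMap (m n : ℕ) (θ : ℝ) (A : Matrix (Fin (m+1)) (Fin n) ℝ) :
    Matrix (Fin (m+1)) (Fin n) ℝ :=
  fun i j => Fin.cases (θ ^ (m + 1 + (j:ℕ)) - ∑ k : Fin m, θ ^ ((k:ℕ)+1) * A k.succ j)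
    (fun i' => A i'.succ j) i


lemma theMap_zero {m n : ℕ} (θ : ℝ) (A : Matrix (Fin (m+1)) (Fin n) ℝ) (j : Fin n) :
    theMap m n θ A 0 j = θ ^ (m + 1 + (j:ℕ)) - ∑ k : Fin m, θ ^ ((k:ℕ)+1) * A k.succ j := rfl

lemma theMap_succ {m n : ℕ} (θ : ℝ) (A : Matrix (Fin (m+1)) (Fin n) ℝ) (i : Fin m) (j : Fin n) :
    theMap m n θ A i.succ j = A i.succ j := rfl

lemma continuous_theMap (m n : ℕ) (θ : ℝ) : Continuous (theMap m n θ) := by
  refine continuous_pi fun i => continuous_pi fun j => ?_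
  refine Fin.cases ?_ (fun i => ?_) i
  · simp only [theMap_zero]
    fun_prop
  · simp only [theMap_succ]
    fun_prop

/-- The linear relation satisfied by the values of `theMap`. -/
lemma sum_theMap {m n : ℕ} (θ : ℝ) (A : Matrix (Fin (m+1)) (Fin n) ℝ) (j : Fin n) :
    ∑ i : Fin (m+1), θ ^ (i:ℕ) * theMap m n θ A i j = θ ^ (m + 1 + (j:ℕ)) := by
  rw [Fin.sum_univ_succ, theMap_zero]
  simp only [theMap_succ, Fin.val_zero, pow_zero, one_mul, Fin.val_succ]
  ring

lemma theMap_add_single {m n : ℕ} (θ : ℝ) (A : Matrix (Fin (m+1)) (Fin n) ℝ) (k : Fin m)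
    (l : Fin n) (ε : ℝ) :
    theMap m n θ (A + Matrix.single k.succ l ε) =
      theMap m n θ A + (Matrix.single k.succ l ε - Matrix.single 0 l (θ ^ ((k:ℕ)+1) * ε)) := by
  ext i j
  refine Fin.cases ?_ (fun i => ?_) i
  · rw [Matrix.add_apply, Matrix.sub_apply, theMap_zero, theMap_zero]
    simp only [Matrix.add_apply, mul_add, Finset.sum_add_distrib]
    have h1 : ∑ x : Fin m, θ ^ ((x:ℕ)+1) * (Matrix.single k.succ l ε) x.succ j =
        (Matrix.single (0 : Fin (m+1)) l (θ ^ ((k:ℕ)+1) * ε)) 0 j := by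
      rw [Finset.sum_eq_single k]
      · simp only [Matrix.single, Matrix.of_apply, true_and]
        split_ifs <;> simp
      · intro b _ hb
        have : k.succ ≠ b.succ := fun h => hb (Fin.succ_injective _ h).symm
        simp [Matrix.single, this]
      · intro h; exact absurd (Finset.mem_univ _) h
    rw [h1]
    have h2 : (Matrix.single k.succ l ε) 0 j = 0 := by
      simp [Matrix.single]
    rw [h2]
    ring
  · rw [Matrix.add_apply, Matrix.sub_apply, theMap_succ, theMap_succ, Matrix.add_apply]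
    have h2 : (Matrix.single (0 : Fin (m+1)) l (θ ^ ((k:ℕ)+1) * ε)) i.succ j = 0 := by
      have : (0 : Fin (m+1)) ≠ i.succ := (Fin.succ_ne_zero i).symm
      simp [Matrix.single, this]
    rw [h2]
    ring

lemma irrational_theta {d : ℕ} (hd : 2 ≤ d) {θ : ℝ} (hθ : θ ^ d = 2) : Irrational θ := by
  apply irrational_nrt_of_notint_nrt d 2 (by simpa using hθ) _ (by omega)
  rintro ⟨y, hy⟩
  rw [hy] at hθ
  have h1 : y ^ d = 2 := by exact_mod_cast hθ
  have h2 : |y| ^ d = 2 := by rw [← abs_pow, h1]; rfl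
  rcases le_or_gt (|y|) 1 with h | h
  · have : |y| ^ d ≤ 1 := pow_le_one₀ (abs_nonneg y) h
    omega
  · have h3 : (2:ℤ) ≤ |y| := h
    have h4 : (2:ℤ) ^ 2 ≤ |y| ^ d := by
      calc (2:ℤ) ^ 2 ≤ 2 ^ d := pow_le_pow_right₀ (by norm_num) hd
        _ ≤ |y| ^ d := pow_le_pow_left₀ (by norm_num) h3 d
    omega

lemma stronglyNowhereConstant_theMap {m n d : ℕ} (hm : 0 < m) (hd : 2 ≤ d) {θ : ℝ}
    (hθ : θ ^ d = 2) : StronglyNowhereConstant (theMap m n θ) := by
  intro R₁ R₂ T h₁ h₂ i j U hU hne hc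
  obtain ⟨c, hc⟩ := hc
  obtain ⟨A, hA⟩ := hne
  have hirr := irrational_theta hd hθ
  -- the `j`-th column of `R₂` is non-zero
  have hcol : ∃ l, R₂ l j ≠ 0 := by
    by_contra hcon
    push Not at hcon
    have hdet : R₂.det = 0 := Matrix.det_eq_zero_of_column_eq_zero j hcon
    exact (((Matrix.isUnit_iff_isUnit_det R₂).1 h₂).ne_zero) hdet
  have hrow : ∃ k, R₁ i k ≠ 0 := by
    by_contra hcon
    push Not at hcon
    have hdet : R₁.det = 0 := Matrix.det_eq_zero_of_row_eq_zero i hcon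
    exact (((Matrix.isUnit_iff_isUnit_det R₁).1 h₁).ne_zero) hdet
  obtain ⟨l, hl⟩ := hcol
  have key : ∀ k : Fin m, (R₁ i k.succ : ℝ) = θ ^ ((k:ℕ)+1) * (R₁ i 0 : ℝ) := by
    intro k
    obtain ⟨ε, hε, hmem⟩ := exists_perturb hU hA k.succ l
    have e1 := hc _ hA
    have e2 := hc _ hmem
    simp only [Matrix.add_apply] at e1 e2
    have e3 : (realMat R₁ * theMap m n θ (A + Matrix.single k.succ l ε) * realMat R₂) i j =
        (realMat R₁ * theMap m n θ A * realMat R₂) i j := by linarith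
    rw [theMap_add_single, Matrix.mul_add, Matrix.add_mul, Matrix.add_apply, Matrix.mul_sub,
      Matrix.sub_mul, Matrix.sub_apply] at e3
    have e4 : ∀ (k₁ : Fin (m+1)) (t : ℝ),
        (realMat R₁ * Matrix.single k₁ l t * realMat R₂) i j = (R₁ i k₁ : ℝ) * t * (R₂ l j : ℝ) := by
      intro k₁ t
      rw [Matrix.mul_apply, Finset.sum_eq_single l]
      · rw [Matrix.mul_apply, Finset.sum_eq_single k₁]
        · simp [Matrix.single, realMat]
        · intro b _ hb
          simp [Matrix.single, hb.symm]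
        · intro h; exact absurd (Finset.mem_univ _) h
      · intro b _ hb
        rw [Matrix.mul_apply]
        have : ∑ x, realMat R₁ i x * Matrix.single k₁ l t x b = 0 := by
          apply Finset.sum_eq_zero
          intro x _
          simp [Matrix.single, hb.symm]
        rw [this, zero_mul]
      · intro h; exact absurd (Finset.mem_univ _) h
    rw [e4, e4] at e3
    have e5 : ((R₁ i k.succ : ℝ) - θ ^ ((k:ℕ)+1) * (R₁ i 0 : ℝ)) * (ε * (R₂ l j : ℝ)) = 0 := by
      linear_combination e3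
    have hR : (R₂ l j : ℝ) ≠ 0 := by exact_mod_cast hl
    rcases mul_eq_zero.1 e5 with h | h
    · linarith
    · exact absurd h (mul_ne_zero hε hR)
  have h0 : R₁ i 0 = 0 := by
    by_contra h0
    have hk := key ⟨0, hm⟩
    simp only [zero_add, pow_one] at hk
    have h0' : (R₁ i 0 : ℝ) ≠ 0 := by exact_mod_cast h0
    apply hirr
    refine ⟨R₁ i (Fin.succ ⟨0, hm⟩) / R₁ i 0, ?_⟩
    push_cast
    rw [hk]
    field_simp
  obtain ⟨k, hk⟩ := hrow
  apply hk
  refine Fin.cases h0 (fun k => ?_) k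
  have := key k
  rw [h0, Rat.cast_zero, mul_zero] at this
  exact_mod_cast this

lemma lic_theMap {m n : ℕ} (hm : 0 < m) (θ : ℝ) : LIC (theMap m n θ) := by
  rintro Ω ⟨A, hA⟩ ⟨p, q, hq, hB⟩
  obtain ⟨l, hl⟩ : ∃ l, q l ≠ 0 := by
    by_contra hcon
    push Not at hcon
    exact hq (funext hcon)
  obtain ⟨ε, hε, hmem⟩ := exists_perturb isOpen_interior hA (Fin.succ ⟨0, hm⟩) l
  have e1 := hB _ ⟨A, interior_subset hA, rfl⟩
  have e2 := hB _ ⟨_, interior_subset hmem, rfl⟩
  have e3 := congrFun (e2.trans e1.symm) (Fin.succ ⟨0, hm⟩)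
  simp only [Matrix.mulVec, dotProduct, theMap_succ, Matrix.add_apply, add_mul,
    Finset.sum_add_distrib] at e3
  have e4 : ∑ x, (Matrix.single (Fin.succ ⟨0, hm⟩) l ε : Matrix (Fin (m+1)) (Fin n) ℝ)
      (Fin.succ ⟨0, hm⟩) x * realVec q x = ε * q l := by
    rw [Finset.sum_eq_single l]
    · simp [Matrix.single, realVec]
    · intro b _ hb
      simp [Matrix.single, hb.symm]
    · intro h; exact absurd (Finset.mem_univ _) h
  rw [e4] at e3
  have e5 : ε * (q l : ℝ) = 0 := by linarith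
  have hl' : (q l : ℝ) ≠ 0 := by exact_mod_cast hl
  exact (mul_ne_zero hε hl') e5


/-- No value of `theMap` is a Liouville matrix. -/
lemma not_isLiouvilleMatrix_theMap {m n : ℕ} {θ : ℝ} (hθ0 : 0 ≤ θ)
    (hθ : θ ^ (m + 1 + n) = 2) (A : Matrix (Fin (m+1)) (Fin n) ℝ) :
    ¬ IsLiouvilleMatrix (theMap m n θ A) := by
  rintro ⟨-, hL⟩
  set B := theMap m n θ A with hB
  obtain ⟨c, hc, hlow⟩ := lower_bound (m + 1 + n) (by omega) θ hθ
  set U : ℝ := ∑ i : Fin (m+1), θ ^ (i:ℕ) with hU
  have hU0 : 0 ≤ U := Finset.sum_nonneg fun i _ => by positivity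
  -- bound for `‖B q‖`
  set M : ℝ := (∑ i : Fin (m+1), ∑ j : Fin n, |B i j|) + 1 with hM
  have hM1 : 1 ≤ M := by
    have : 0 ≤ ∑ i : Fin (m+1), ∑ j : Fin n, |B i j| :=
      Finset.sum_nonneg fun i _ => Finset.sum_nonneg fun j _ => abs_nonneg _
    linarith
  have hBq : ∀ q : Fin n → ℤ, ‖B *ᵥ realVec q‖ ≤ (M - 1) * ‖q‖ := by
    intro q
    rw [pi_norm_le_iff_of_nonneg (by
      have := norm_nonneg q
      exact mul_nonneg (by linarith) this)]
    intro i
    simp only [Matrix.mulVec, dotProduct]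
    calc ‖∑ j, B i j * realVec q j‖ ≤ ∑ j, ‖B i j * realVec q j‖ := norm_sum_le _ _
      _ ≤ ∑ j, |B i j| * ‖q‖ := by
        apply Finset.sum_le_sum
        intro j _
        rw [norm_mul, Real.norm_eq_abs]
        apply mul_le_mul_of_nonneg_left _ (abs_nonneg _)
        have := norm_le_pi_norm q j
        rw [Int.norm_eq_abs] at this
        rw [Real.norm_eq_abs]
        exact this
      _ = (∑ j, |B i j|) * ‖q‖ := by rw [Finset.sum_mul]
      _ ≤ (M - 1) * ‖q‖ := by
        apply mul_le_mul_of_nonneg_right _ (norm_nonneg _)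
        rw [hM, add_sub_cancel_right]
        exact Finset.single_le_sum (f := fun i => ∑ j, |B i j|)
          (fun i _ => Finset.sum_nonneg fun j _ => abs_nonneg _) (Finset.mem_univ i)
  -- the constants
  set K : ℝ := (U + 1) * M ^ (m + n) / c with hK
  have hKpos : 0 < K := by positivity
  obtain ⟨t, ht⟩ := pow_unbounded_of_one_lt K (by norm_num : (1:ℝ) < 2)
  obtain ⟨p, q, hq1, hpq⟩ := hL ((m + n + t + 1 : ℕ) : ℝ) (by positivity)
  rw [Real.rpow_neg (norm_nonneg _), Real.rpow_natCast] at hpq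
  -- `‖q‖ ≥ 2`
  have hq2 : (2:ℝ) ≤ ‖q‖ := by
    obtain ⟨j, hj⟩ : ∃ j, 1 < ‖q j‖ := by
      by_contra hcon
      push Not at hcon
      exact absurd ((pi_norm_le_iff_of_nonneg zero_le_one).2 hcon) (not_le.2 hq1)
    refine le_trans ?_ (norm_le_pi_norm q j)
    rw [Int.norm_eq_abs] at hj ⊢
    have h2 : (1:ℤ) < |q j| := by exact_mod_cast hj
    exact_mod_cast (show (2:ℤ) ≤ |q j| from h2)
  have hqpos : 0 < ‖q‖ := by linarith
  -- the bound for `p`
  have hp : ‖p‖ ≤ M * ‖q‖ := by
    have h1 : ‖(realVec p : Fin (m+1) → ℝ)‖ ≤ ‖B *ᵥ realVec q‖ + ‖B *ᵥ realVec q - realVec p‖ := by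
      have := norm_sub_le (B *ᵥ realVec q) (B *ᵥ realVec q - realVec p)
      simpa using this
    have h2 : ‖(realVec p : Fin (m+1) → ℝ)‖ = ‖p‖ := by
      apply le_antisymm
      · rw [pi_norm_le_iff_of_nonneg (norm_nonneg _)]
        intro i
        have := norm_le_pi_norm p i
        rw [Int.norm_eq_abs] at this
        rw [Real.norm_eq_abs]
        exact this
      · rw [pi_norm_le_iff_of_nonneg (norm_nonneg _)]
        intro i
        have := norm_le_pi_norm (realVec p) i
        rw [Real.norm_eq_abs] at this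
        rw [Int.norm_eq_abs]
        exact this
    have h3 : (‖q‖ ^ (m + n + t + 1))⁻¹ ≤ ‖q‖ := by
      have : (1:ℝ) ≤ ‖q‖ ^ (m + n + t + 1) := one_le_pow₀ (by linarith)
      have := inv_le_one_of_one_le₀ this
      linarith
    have := hBq q
    rw [h2] at h1
    nlinarith [hpq.le]
  -- the integer vector `x = (-p, q)`
  set x : Fin (m + 1 + n) → ℤ := fun i => Fin.addCases (fun a => - p a) (fun b => q b) i with hx
  have hxne : x ≠ 0 := by
    intro h
    have hq0 : q = 0 := by
      funext b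
      have := congrFun h (Fin.natAdd (m+1) b)
      simpa [hx] using this
    rw [hq0, norm_zero] at hq1
    linarith
  have hsum : ∑ i, (x i : ℝ) * θ ^ (i : ℕ) =
      ∑ i : Fin (m+1), θ ^ (i:ℕ) * (B *ᵥ realVec q - realVec p) i := by
    rw [Fin.sum_univ_add]
    have e1 : ∀ i : Fin (m+1), ((x (Fin.castAdd n i) : ℤ) : ℝ) = - (p i : ℝ) := by
      intro i; simp [hx]
    have e2 : ∀ j : Fin n, ((x (Fin.natAdd (m+1) j) : ℤ) : ℝ) = (q j : ℝ) := by
      intro j; simp [hx]
    simp only [e1, e2, Fin.val_castAdd, Fin.val_natAdd, Pi.sub_apply, mul_sub,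
      Finset.sum_sub_distrib]
    have e3 : ∑ i : Fin (m+1), θ ^ (i:ℕ) * (B *ᵥ realVec q) i =
        ∑ j : Fin n, (q j : ℝ) * θ ^ (m + 1 + (j:ℕ)) := by
      simp only [Matrix.mulVec, dotProduct, Finset.mul_sum]
      rw [Finset.sum_comm]
      apply Finset.sum_congr rfl
      intro j _
      rw [← sum_theMap θ A j, Finset.mul_sum]
      apply Finset.sum_congr rfl
      intro i _
      simp only [realVec]
      ring
    rw [e3]
    simp only [realVec, neg_mul, Finset.sum_neg_distrib]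
    have e4 : ∑ i : Fin (m+1), (p i : ℝ) * θ ^ (i:ℕ) = ∑ i : Fin (m+1), θ ^ (i:ℕ) * (p i : ℝ) :=
      Finset.sum_congr rfl fun i _ => mul_comm _ _
    rw [e4]
    ring
  have hxnorm : ‖x‖ ≤ M * ‖q‖ := by
    rw [pi_norm_le_iff_of_nonneg (by positivity)]
    intro i
    refine Fin.addCases (fun a => ?_) (fun b => ?_) i
    · have : x (Fin.castAdd n a) = - p a := by simp [hx]
      rw [this, norm_neg]
      exact (norm_le_pi_norm p a).trans hp
    · have : x (Fin.natAdd (m+1) b) = q b := by simp [hx]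
      rw [this]
      refine (norm_le_pi_norm q b).trans ?_
      nlinarith
  have hupper : |∑ i, (x i : ℝ) * θ ^ (i : ℕ)| ≤ U * (‖q‖ ^ (m + n + t + 1))⁻¹ := by
    rw [hsum, hU, Finset.sum_mul]
    refine (Finset.abs_sum_le_sum_abs _ _).trans ?_
    apply Finset.sum_le_sum
    intro i _
    rw [abs_mul, abs_of_nonneg (by positivity : (0:ℝ) ≤ θ ^ (i:ℕ))]
    apply mul_le_mul_of_nonneg_left _ (by positivity)
    have := norm_le_pi_norm (B *ᵥ realVec q - realVec p) i
    rw [Real.norm_eq_abs] at this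
    exact this.trans hpq.le
  have hfin := hlow x hxne
  have hd1 : m + 1 + n - 1 = m + n := by omega
  rw [hd1] at hfin
  have h5 : c ≤ (U * (‖q‖ ^ (m + n + t + 1))⁻¹) * (M * ‖q‖) ^ (m + n) := by
    refine hfin.trans (mul_le_mul hupper (pow_le_pow_left₀ (norm_nonneg _) hxnorm _)
      (by positivity) (by positivity))
  have h6 : (U * (‖q‖ ^ (m + n + t + 1))⁻¹) * (M * ‖q‖) ^ (m + n) =
      U * M ^ (m + n) * (‖q‖ ^ (t + 1))⁻¹ := by
    rw [mul_pow, show m + n + t + 1 = (t + 1) + (m + n) by ring, pow_add ‖q‖ (t+1) (m+n)]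
    field_simp
  rw [h6] at h5
  have h7 : c * ‖q‖ ^ (t + 1) ≤ U * M ^ (m + n) := by
    rw [← div_eq_mul_inv, le_div_iff₀ (by positivity)] at h5
    exact h5
  have h8 : (2:ℝ) ^ t ≤ ‖q‖ ^ (t + 1) := by
    calc (2:ℝ) ^ t ≤ 2 ^ (t + 1) := pow_le_pow_right₀ (by norm_num) (by omega)
      _ ≤ ‖q‖ ^ (t + 1) := pow_le_pow_left₀ (by norm_num) hq2 _
  have h9 : K * c = (U + 1) * M ^ (m + n) := by
    rw [hK]; field_simp
  have h10 : K * c < c * ‖q‖ ^ (t + 1) := by
    rw [mul_comm]
    exact mul_lt_mul_of_pos_left (ht.trans_le h8) hc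
  have h11 : 0 < M ^ (m + n) := by positivity
  nlinarith

/-- Every pair `(m, n)` with `m ≥ 2` is admissible. -/
lemma admissible_of_two_le {m n : ℕ} (hm : 2 ≤ m) : Admissible m n := by
  obtain ⟨k, rfl⟩ : ∃ k, m = k + 1 := ⟨m - 1, by omega⟩
  set θ : ℝ := (2:ℝ) ^ ((1:ℝ) / ((k + 1 + n : ℕ) : ℝ)) with hθdef
  have hθ0 : 0 ≤ θ := by positivity
  have hθ : θ ^ (k + 1 + n) = 2 := by
    rw [hθdef, ← Real.rpow_natCast, ← Real.rpow_mul (by norm_num)]
    rw [one_div, inv_mul_cancel₀ (by positivity), Real.rpow_one]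
  exact ⟨theMap k n θ, continuous_theMap k n θ,
    stronglyNowhereConstant_theMap (by omega) (by omega) hθ, lic_theMap (by omega) θ,
    fun A => not_isLiouvilleMatrix_theMap hθ0 hθ A⟩

/-! ## The case `m = 1`: a category argument -/

/-- No pair `(1, n)` is admissible. -/
lemma not_admissible_one {n : ℕ} (hn : 0 < n) : ¬ Admissible 1 n := by
  rintro ⟨f, hf, hs, hlic, hav⟩
  have : BaireSpace (Fin 1 → Fin n → ℝ) := inferInstance
  have : BaireSpace (Matrix (Fin 1) (Fin n) ℝ) := this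
  have hcontq : ∀ q : Fin n → ℤ, Continuous fun A : Matrix (Fin 1) (Fin n) ℝ => f A *ᵥ realVec q := by
    intro q
    exact Continuous.matrix_mulVec hf continuous_const
  -- the first family of dense open sets
  set V : ((Fin n → ℤ) × (Fin 1 → ℤ)) → Set (Matrix (Fin 1) (Fin n) ℝ) :=
    fun s => {A | s ≠ (0, 0) → f A *ᵥ realVec s.1 ≠ realVec s.2} with hV
  have hVopen : ∀ s, IsOpen (V s) := by
    intro s
    by_cases h : s = (0, 0)
    · have : V s = Set.univ := by
        ext A; simp [hV, h]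
      rw [this]; exact isOpen_univ
    · have : V s = {A | f A *ᵥ realVec s.1 ≠ realVec s.2} := by
        ext A; simp [hV, h]
      rw [this]
      exact isOpen_ne_fun (hcontq s.1) continuous_const
  have hVdense : ∀ s, Dense (V s) := by
    intro s
    rw [dense_iff_inter_open]
    intro W hW hWne
    by_contra hcon
    rw [Set.not_nonempty_iff_eq_empty] at hcon
    have hall : ∀ A ∈ W, s ≠ (0, 0) ∧ f A *ᵥ realVec s.1 = realVec s.2 := by
      intro A hA
      by_contra hc
      have : A ∈ W ∩ V s := by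
        refine ⟨hA, ?_⟩
        intro hs0 heq
        exact hc ⟨hs0, heq⟩
      rw [hcon] at this
      exact this
    obtain ⟨A, hA⟩ := hWne
    by_cases hq : s.1 = 0
    · have h1 := hall A hA
      have h2 : (realVec s.2 : Fin 1 → ℝ) = 0 := by
        rw [← h1.2, hq]
        have : (realVec (0 : Fin n → ℤ)) = 0 := by funext i; simp [realVec]
        rw [this, Matrix.mulVec_zero]
      apply h1.1
      ext1
      · exact hq
      · funext i
        have := congrFun h2 i
        simp only [realVec, Pi.zero_apply] at this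
        exact_mod_cast this
    · refine hlic W ?_ ⟨s.2, s.1, hq, ?_⟩
      · rw [hW.interior_eq]; exact ⟨A, hA⟩
      · rintro _ ⟨A', hA', rfl⟩
        exact (hall A' hA').2
  -- the second family of dense open sets
  set G : ℕ → Set (Matrix (Fin 1) (Fin n) ℝ) := fun N => ⋃ (s : (Fin n → ℤ) × (Fin 1 → ℤ)), ⋃ (_ : 1 < ‖s.1‖),
    {A | ‖f A *ᵥ realVec s.1 - realVec s.2‖ < ‖s.1‖ ^ (-(N:ℝ))} with hG
  have hGopen : ∀ N, IsOpen (G N) := by
    intro N
    refine isOpen_iUnion fun s => isOpen_iUnion fun _ => ?_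
    exact isOpen_lt ((hcontq s.1).sub continuous_const).norm continuous_const
  have hGdense : ∀ N, Dense (G N) := by
    intro N
    rw [dense_iff_inter_open]
    intro W hW hWne
    obtain ⟨A₀, hA₀⟩ := hWne
    set j₀ : Fin n := ⟨0, hn⟩
    set g : Matrix (Fin 1) (Fin n) ℝ → ℝ := fun A => f A 0 j₀ with hg
    have hgcont : Continuous g := (continuous_apply_apply (0 : Fin 1) j₀).comp hf
    have hgnc : NowhereConstant g := by
      have h1 := hs 1 1 0 isUnit_one isUnit_one 0 j₀
      have h2 : (fun A : Matrix (Fin 1) (Fin n) ℝ => (realMat (1 : Matrix (Fin 1) (Fin 1) ℚ) * f A *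
          realMat (1 : Matrix (Fin n) (Fin n) ℚ) + realMat (0 : Matrix (Fin 1) (Fin n) ℚ) :
          Matrix (Fin 1) (Fin n) ℝ) 0 j₀) = g := by
        have e1 : realMat (1 : Matrix (Fin 1) (Fin 1) ℚ) = 1 := by
          ext i j
          simp only [realMat, Matrix.one_apply]
          split_ifs <;> simp
        have e2 : realMat (1 : Matrix (Fin n) (Fin n) ℚ) = 1 := by
          ext i j
          simp only [realMat, Matrix.one_apply]
          split_ifs <;> simp
        have e3 : realMat (0 : Matrix (Fin 1) (Fin n) ℚ) = 0 := by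
          ext i j; simp [realMat]
        funext A
        rw [e1, e2, e3, Matrix.one_mul, Matrix.mul_one, add_zero]
      rw [h2] at h1
      exact h1
    -- a connected open neighbourhood inside W
    obtain ⟨W', hW'sub, hW'open, hW'mem, hW'conn⟩ : ∃ W' ⊆ W, IsOpen W' ∧ A₀ ∈ W' ∧
        IsPreconnected W' := by
      have : LocallyConnectedSpace (Fin 1 → Fin n → ℝ) := inferInstance
      have : LocallyConnectedSpace (Matrix (Fin 1) (Fin n) ℝ) := this
      refine ⟨connectedComponentIn W A₀, connectedComponentIn_subset _ _,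
        hW.connectedComponentIn, mem_connectedComponentIn hA₀, isPreconnected_connectedComponentIn⟩
    obtain ⟨A₁, hA₁, hne⟩ : ∃ A₁ ∈ W', g A₁ ≠ g A₀ := by
      by_contra hcon
      push Not at hcon
      exact hgnc W' hW'open ⟨A₀, hW'mem⟩ ⟨g A₀, hcon⟩
    have hord : (g '' W').OrdConnected :=
      (hW'conn.image g hgcont.continuousOn).ordConnected
    obtain ⟨r, hr⟩ : ∃ r : ℚ, (r : ℝ) ∈ g '' W' := by
      rcases lt_or_gt_of_ne hne with h | h
      · obtain ⟨r, hr1, hr2⟩ := exists_rat_btwn h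
        exact ⟨r, hord.out ⟨A₁, hA₁, rfl⟩ ⟨A₀, hW'mem, rfl⟩ ⟨hr1.le, hr2.le⟩⟩
      · obtain ⟨r, hr1, hr2⟩ := exists_rat_btwn h
        exact ⟨r, hord.out ⟨A₀, hW'mem, rfl⟩ ⟨A₁, hA₁, rfl⟩ ⟨hr1.le, hr2.le⟩⟩
    obtain ⟨A, hAW, hAr⟩ := hr
    refine ⟨A, hW'sub hAW, ?_⟩
    rw [hG]
    simp only [Set.mem_iUnion, Set.mem_ofPred_eq]
    set q : Fin n → ℤ := Pi.single j₀ (2 * (r.den : ℤ)) with hqdef
    set p : Fin 1 → ℤ := fun _ => 2 * r.num with hpdef
    have hqnorm : ‖q‖ = 2 * (r.den : ℝ) := by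
      rw [hqdef, Pi.norm_single, Int.norm_eq_abs]
      push_cast
      rw [abs_of_nonneg (by positivity)]
    have hden : (1:ℝ) ≤ r.den := by exact_mod_cast r.pos
    refine ⟨(q, p), ?_, ?_⟩
    · show 1 < ‖q‖
      rw [hqnorm]; linarith
    · show ‖f A *ᵥ realVec q - realVec p‖ < ‖q‖ ^ (-(N:ℝ))
      have hzero : f A *ᵥ realVec q - realVec p = 0 := by
        funext i
        have hi : i = 0 := Subsingleton.elim _ _
        rw [hi, Pi.sub_apply, Pi.zero_apply, sub_eq_zero]
        simp only [Matrix.mulVec, dotProduct]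
        rw [Finset.sum_eq_single j₀]
        · have h1 : realVec q j₀ = 2 * (r.den : ℝ) := by
            simp [realVec, hqdef]
          have h2 : (realVec p : Fin 1 → ℝ) 0 = 2 * (r.num : ℝ) := by
            simp [realVec, hpdef]
          rw [h1, h2]
          have h3 : f A 0 j₀ = (r : ℝ) := hAr
          rw [h3]
          have h4 : (r : ℝ) * (r.den : ℝ) = (r.num : ℝ) := by
            exact_mod_cast Rat.mul_den_eq_num r
          linear_combination 2 * h4
        · intro b _ hb
          simp [realVec, hqdef, Pi.single_eq_of_ne hb]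
        · intro h; exact absurd (Finset.mem_univ _) h
      rw [hzero, norm_zero]
      have : 0 < ‖q‖ := by rw [hqnorm]; linarith
      positivity
  have hdense1 : Dense (⋂ s, V s) := dense_iInter_of_isOpen hVopen hVdense
  have hdense2 : Dense (⋂ N, G N) := dense_iInter_of_isOpen hGopen hGdense
  have hGδ1 : IsGδ (⋂ s, V s) := .iInter_of_isOpen hVopen
  have hGδ2 : IsGδ (⋂ N, G N) := .iInter_of_isOpen hGopen
  have hboth := hdense1.inter_of_Gδ hGδ1 hGδ2 hdense2
  obtain ⟨A, hA1, hA2⟩ := hboth.nonempty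
  rw [Set.mem_iInter] at hA1 hA2
  apply hav A
  refine ⟨fun q p hqp => hA1 (q, p) hqp, ?_⟩
  intro N hN
  obtain ⟨N', hN'⟩ := exists_nat_ge N
  have h1 := hA2 N'
  rw [hG] at h1
  simp only [Set.mem_iUnion, Set.mem_ofPred_eq] at h1
  obtain ⟨s, hs1, hs2⟩ := h1
  refine ⟨s.2, s.1, hs1, hs2.trans_le ?_⟩
  exact Real.rpow_le_rpow_of_exponent_le hs1.le (by linarith)


/-! ## Sanity checks for the definition of a Liouville matrix -/

/-- For `1 × 1` matrices the definition is that of a Liouville number. -/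
theorem isLiouvilleMatrix_one_one_iff (x : ℝ) :
    IsLiouvilleMatrix (fun _ _ => x : Matrix (Fin 1) (Fin 1) ℝ) ↔ Liouville x := by
  have hmul : ∀ (q : Fin 1 → ℤ) (i : Fin 1),
      ((fun _ _ => x : Matrix (Fin 1) (Fin 1) ℝ) *ᵥ realVec q) i = x * (q 0 : ℝ) := by
    intro q i
    simp [Matrix.mulVec, dotProduct, realVec]
  have hnorm : ∀ q : Fin 1 → ℤ, ‖q‖ = |(q 0 : ℝ)| := by
    intro q
    apply le_antisymm
    · rw [pi_norm_le_iff_of_nonneg (abs_nonneg _)]
      intro i
      rw [Subsingleton.elim i 0, Int.norm_eq_abs]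
    · have := norm_le_pi_norm q 0
      rwa [Int.norm_eq_abs] at this
  have hnorm' : ∀ v : Fin 1 → ℝ, ‖v‖ = |v 0| := by
    intro v
    apply le_antisymm
    · rw [pi_norm_le_iff_of_nonneg (abs_nonneg _)]
      intro i
      rw [Subsingleton.elim i 0, Real.norm_eq_abs]
    · have := norm_le_pi_norm v 0
      rwa [Real.norm_eq_abs] at this
  constructor
  · rintro ⟨h1, h2⟩ n
    obtain ⟨p, q, hq, hpq⟩ := h2 ((n + 1 : ℕ) : ℝ) (by positivity)
    rw [hnorm'] at hpq
    rw [hnorm] at hq hpq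
    rw [Pi.sub_apply, hmul, Real.rpow_neg (abs_nonneg _), Real.rpow_natCast] at hpq
    simp only [realVec] at hpq
    have hq0 : (q 0 : ℝ) ≠ 0 := by
      intro h; rw [h, abs_zero] at hq; linarith
    have hq0' : q 0 ≠ 0 := by exact_mod_cast hq0
    have habs : (0:ℝ) < |(q 0 : ℝ)| := abs_pos.2 hq0
    have hsign : ((q 0).sign : ℝ) * (q 0 : ℝ) = |(q 0 : ℝ)| := by
      exact_mod_cast Int.sign_mul_self_eq_abs (q 0)
    have hsign2 : ((q 0).sign : ℝ) * ((q 0).sign : ℝ) = 1 := by
      have : (q 0).sign * (q 0).sign = 1 := by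
        rcases lt_or_gt_of_ne hq0' with h | h
        · rw [Int.sign_eq_neg_one_of_neg h]; norm_num
        · rw [Int.sign_eq_one_of_pos h]; norm_num
      exact_mod_cast this
    refine ⟨(q 0).sign * p 0, |q 0|, by exact_mod_cast hq, ?_, ?_⟩
    · intro hx
      apply h1 q p
      · intro h
        have : q = 0 := congrArg Prod.fst h
        apply hq0'
        rw [this]; rfl
      · funext i
        rw [hmul, hx, Subsingleton.elim i 0]
        simp only [realVec]
        push_cast
        rw [← hsign]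
        have hsne : ((q 0).sign : ℝ) ≠ 0 := by
          intro h
          rw [h, zero_mul] at hsign2
          exact zero_ne_one hsign2
        field_simp
    · push_cast
      have e1 : x - ((q 0).sign : ℝ) * (p 0 : ℝ) / |(q 0 : ℝ)| =
          ((q 0).sign : ℝ) * (x * (q 0 : ℝ) - (p 0 : ℝ)) / |(q 0 : ℝ)| := by
        rw [mul_sub, show ((q 0).sign : ℝ) * (x * (q 0 : ℝ)) = x * (((q 0).sign : ℝ) * (q 0 : ℝ)) by
          ring, hsign]
        field_simp
      have e2 : |((q 0).sign : ℝ)| = 1 := by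
        have := hsign2
        rw [← abs_mul_abs_self] at this
        nlinarith [abs_nonneg ((q 0).sign : ℝ)]
      rw [e1, abs_div, abs_mul, e2, one_mul, abs_abs, div_lt_div_iff₀ habs (by positivity), one_mul]
      have e3 : |x * (q 0 : ℝ) - (p 0 : ℝ)| * |(q 0 : ℝ)| ^ (n + 1) < 1 := by
        rw [← lt_div_iff₀ (by positivity), one_div]
        exact hpq
      have e4 : |(q 0 : ℝ)| ^ n ≤ |(q 0 : ℝ)| ^ (n + 1) :=
        pow_le_pow_right₀ hq.le (by omega)
      calc |x * (q 0 : ℝ) - (p 0 : ℝ)| * |(q 0 : ℝ)| ^ n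
          ≤ |x * (q 0 : ℝ) - (p 0 : ℝ)| * |(q 0 : ℝ)| ^ (n + 1) :=
            mul_le_mul_of_nonneg_left e4 (abs_nonneg _)
        _ < 1 := e3
        _ < |(q 0 : ℝ)| := hq
  · intro hL
    refine ⟨?_, ?_⟩
    · intro q p hqp heq
      have h1 := congrFun heq 0
      rw [hmul] at h1
      simp only [realVec] at h1
      by_cases hq : q 0 = 0
      · rw [hq, Int.cast_zero, mul_zero] at h1
        have hp : p 0 = 0 := by exact_mod_cast h1.symm
        apply hqp
        ext i
        · rw [Subsingleton.elim i 0]; exact hq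
        · rw [Subsingleton.elim i 0]; exact hp
      · apply hL.irrational
        have hq' : (q 0 : ℝ) ≠ 0 := by exact_mod_cast hq
        refine ⟨(p 0 : ℚ) / (q 0 : ℚ), ?_⟩
        push_cast
        rw [← h1]
        field_simp
    · intro N hN
      obtain ⟨n, hn⟩ := exists_nat_ge N
      obtain ⟨a, b, hb, -, hab⟩ := hL (n + 1)
      have hb0 : (0:ℝ) < (b:ℝ) := by exact_mod_cast (by omega : 0 < b)
      have hb1 : (1:ℝ) < (b:ℝ) := by exact_mod_cast hb
      refine ⟨fun _ => a, fun _ => b, ?_, ?_⟩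
      · rw [hnorm, abs_of_pos hb0]; exact hb1
      · rw [hnorm', hnorm, Pi.sub_apply, hmul, abs_of_pos hb0]
        simp only [realVec]
        have e1 : |x * (b:ℝ) - (a:ℝ)| = |x - (a:ℝ)/(b:ℝ)| * (b:ℝ) := by
          rw [show x * (b:ℝ) - (a:ℝ) = (x - (a:ℝ)/(b:ℝ)) * (b:ℝ) by field_simp, abs_mul,
            abs_of_pos hb0]
        rw [e1]
        have e2 : |x - (a:ℝ)/(b:ℝ)| * (b:ℝ) < (b:ℝ) ^ (-(n:ℝ)) := by
          rw [Real.rpow_neg hb0.le, Real.rpow_natCast]
          calc |x - (a:ℝ)/(b:ℝ)| * (b:ℝ) < 1 / (b:ℝ) ^ (n + 1) * (b:ℝ) :=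
                mul_lt_mul_of_pos_right hab hb0
            _ = ((b:ℝ) ^ n)⁻¹ := by rw [pow_succ]; field_simp
        exact e2.trans_le (Real.rpow_le_rpow_of_exponent_le hb1.le (by linarith))

/-- The second condition can equivalently be stated with infinitely many pairs `(p, q)` and
`q ≠ 0` only. -/
theorem isLiouvilleMatrix_iff_infinite {m n : ℕ} (A : Matrix (Fin m) (Fin n) ℝ) :
    IsLiouvilleMatrix A ↔
      (∀ (q : Fin n → ℤ) (p : Fin m → ℤ), (q, p) ≠ (0, 0) → A *ᵥ realVec q ≠ realVec p) ∧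
      (∀ N : ℝ, 0 < N → {s : (Fin m → ℤ) × (Fin n → ℤ) |
        s.2 ≠ 0 ∧ ‖A *ᵥ realVec s.2 - realVec s.1‖ < ‖s.2‖ ^ (-N)}.Infinite) := by
  unfold IsLiouvilleMatrix
  refine and_congr_right fun h1 => ⟨fun h2 N₀ hN₀ hfin => ?_, fun h2 N hN => ?_⟩
  · -- a positive lower bound on the finite set
    have hpos : ∃ δ : ℝ, 0 < δ ∧ ∀ s ∈ {s : (Fin m → ℤ) × (Fin n → ℤ) |
        s.2 ≠ 0 ∧ ‖A *ᵥ realVec s.2 - realVec s.1‖ < ‖s.2‖ ^ (-N₀)},
        δ ≤ ‖A *ᵥ realVec s.2 - realVec s.1‖ := by
      rcases Set.eq_empty_or_nonempty {s : (Fin m → ℤ) × (Fin n → ℤ) |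
        s.2 ≠ 0 ∧ ‖A *ᵥ realVec s.2 - realVec s.1‖ < ‖s.2‖ ^ (-N₀)} with hE | hE
      · exact ⟨1, one_pos, fun s hs => by rw [hE] at hs; exact hs.elim⟩
      · obtain ⟨s₀, hs₀, hmin⟩ := hfin.exists_minimalFor
          (fun s => ‖A *ᵥ realVec s.2 - realVec s.1‖) _ hE
        refine ⟨‖A *ᵥ realVec s₀.2 - realVec s₀.1‖, ?_, ?_⟩
        · rw [norm_pos_iff, sub_ne_zero]
          apply h1
          intro h
          exact hs₀.1 (congrArg Prod.fst h)
        · intro s hs
          rcases le_total ‖A *ᵥ realVec s₀.2 - realVec s₀.1‖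
            ‖A *ᵥ realVec s.2 - realVec s.1‖ with h | h
          · exact h
          · exact hmin hs h
    obtain ⟨δ, hδ, hle⟩ := hpos
    obtain ⟨t, ht⟩ := exists_pow_lt_of_lt_one hδ (by norm_num : (1/2:ℝ) < 1)
    obtain ⟨p, q, hq, hpq⟩ := h2 (N₀ + t) (by positivity)
    have hq2 : (2:ℝ) ≤ ‖q‖ := by
      obtain ⟨j, hj⟩ : ∃ j, 1 < ‖q j‖ := by
        by_contra hcon
        push Not at hcon
        exact absurd ((pi_norm_le_iff_of_nonneg zero_le_one).2 hcon) (not_le.2 hq)
      refine le_trans ?_ (norm_le_pi_norm q j)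
      rw [Int.norm_eq_abs] at hj ⊢
      have h2 : (1:ℤ) < |q j| := by exact_mod_cast hj
      exact_mod_cast (show (2:ℤ) ≤ |q j| from h2)
    have hmem := hle (p, q) ⟨by
      intro h
      have h' : q = 0 := h
      rw [h', norm_zero] at hq
      linarith, hpq.trans_le (Real.rpow_le_rpow_of_exponent_le hq.le (by
        have : (0:ℝ) ≤ t := by positivity
        linarith))⟩
    have h3 : ‖q‖ ^ (-(N₀ + t)) ≤ (1/2:ℝ) ^ t := by
      calc ‖q‖ ^ (-(N₀ + t)) ≤ ‖q‖ ^ (-(t:ℝ)) :=
            Real.rpow_le_rpow_of_exponent_le hq.le (by linarith)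
        _ = (‖q‖ ^ t)⁻¹ := by rw [Real.rpow_neg (norm_nonneg _), Real.rpow_natCast]
        _ ≤ (2 ^ t)⁻¹ := by
            apply inv_anti₀ (by positivity)
            exact pow_le_pow_left₀ (by norm_num) hq2 _
        _ = (1/2:ℝ) ^ t := by rw [one_div, inv_pow]
    have h4 : ‖A *ᵥ realVec q - realVec p‖ < δ := (hpq.trans_le h3).trans ht
    exact absurd hmem (not_le.2 h4)
  · by_contra hcon
    push Not at hcon
    apply h2 N hN
    -- all pairs have `‖q‖ ≤ 1`, hence `‖p‖` is bounded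
    set M : ℝ := (∑ i : Fin m, ∑ j : Fin n, |A i j|) + 1 with hM
    have hM0 : 0 ≤ ∑ i : Fin m, ∑ j : Fin n, |A i j| :=
      Finset.sum_nonneg fun i _ => Finset.sum_nonneg fun j _ => abs_nonneg _
    apply Set.Finite.subset (s := Metric.closedBall (0 : (Fin m → ℤ) × (Fin n → ℤ)) M)
    · exact (isCompact_closedBall _ _).finite_of_discrete
    · rintro ⟨p, q⟩ ⟨hq0, hpq⟩
      have hq0' : q ≠ 0 := hq0
      have hpq' : ‖A *ᵥ realVec q - realVec p‖ < ‖q‖ ^ (-N) := hpq
      have hq1 : ‖q‖ ≤ 1 := by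
        by_contra hc
        exact absurd hpq' (not_lt.2 (hcon p q (not_le.1 hc)))
      have hq1' : 1 ≤ ‖q‖ := by
        obtain ⟨j, hj⟩ : ∃ j, q j ≠ 0 := by
          by_contra hc
          push Not at hc
          exact hq0' (funext hc)
        refine le_trans ?_ (norm_le_pi_norm q j)
        rw [Int.norm_eq_abs]
        have h2 : (1:ℤ) ≤ |q j| := Int.one_le_abs hj
        exact_mod_cast h2
      have hqe : ‖q‖ = 1 := le_antisymm hq1 hq1'
      rw [hqe, Real.one_rpow] at hpq'
      rw [mem_closedBall_zero_iff, Prod.norm_def]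
      apply max_le
      · show ‖p‖ ≤ M
        rw [pi_norm_le_iff_of_nonneg (by linarith)]
        intro i
        have h3 : |(A *ᵥ realVec q) i| ≤ ∑ i : Fin m, ∑ j : Fin n, |A i j| := by
          simp only [Matrix.mulVec, dotProduct]
          calc |∑ j, A i j * realVec q j| ≤ ∑ j, |A i j * realVec q j| :=
                Finset.abs_sum_le_sum_abs _ _
            _ ≤ ∑ j, |A i j| := by
                apply Finset.sum_le_sum
                intro j _
                rw [abs_mul]
                have h4 : |realVec q j| ≤ 1 := by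
                  have := norm_le_pi_norm q j
                  rw [Int.norm_eq_abs, hqe] at this
                  exact this
                nlinarith [abs_nonneg (A i j)]
            _ ≤ ∑ i : Fin m, ∑ j : Fin n, |A i j| :=
                Finset.single_le_sum (f := fun i => ∑ j, |A i j|)
                  (fun i _ => Finset.sum_nonneg fun j _ => abs_nonneg _) (Finset.mem_univ i)
        have h5 : |(A *ᵥ realVec q) i - (p i : ℝ)| ≤ 1 := by
          have := norm_le_pi_norm (A *ᵥ realVec q - realVec p) i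
          rw [Real.norm_eq_abs] at this
          exact this.trans hpq'.le
        rw [Int.norm_eq_abs]
        have h6 := abs_sub_abs_le_abs_sub (p i : ℝ) ((A *ᵥ realVec q) i)
        rw [abs_sub_comm] at h6
        linarith
      · show ‖q‖ ≤ M
        linarith

/-- **Classification of the admissible pairs.** A pair `(m, n)` of positive integers is admissible
if and only if `m ≥ 2`. -/
theorem result (m n : ℕ) (hm : 0 < m) (hn : 0 < n) : Admissible m n ↔ 2 ≤ m := by
  constructor
  · intro h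
    by_contra hcon
    obtain rfl : m = 1 := by omega
    exact not_admissible_one hn h
  · intro h
    exact admissible_of_two_le h

end Pool.Agent.Results.MP_6d7a61_nt.Classification
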